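import Mathlib
import Pool.Agent.SLow.Tower

/-!
# Stark's conjecture for real quadratic fields: removing primes from `S`
-/

open NumberField Module Pool.Agent.SLow

namespace Pool.Agent.Attic40.SLowering

/-- Let `K` be a real quadratic field with the real embeddings `ι₁`, `ι₂` and let `m ≠ 0` be an ideal.
`InTower ι₁ ι₂ m i`: the abelian extension `H/K` with the real embedding `i` over `ι₁` is contained in
a ray class field of modulus `m^j ∞₂`. `StarkFor b c ι₂ M i`: conditions 1, 2, 3 of the question for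
`H/K` and `S` = prime factors of `M` and infinite places (exponent `2 c` in condition 1), if
`b = true` with Tate's condition that the square roots are abelian over `K`.
`StarkS b ι₁ ι₂ m M`: the same with `c = 1` for all `H` in the tower.

(1) Let `m ≠ (1)`, `H ⊆ L` in the tower, `[L : H]` even, and divisible by `4` if `b = true`. If the
conjecture fails for `H` and `S` = prime factors of `m`, then it fails for `L` and `S ∪ {q}`, for all
`q` in a set of primes of lower density at least `1/2`.

(2) Let `m ≠ (1)`, `H` in the tower. If the statement for the squares (on `exp (-4 ζ'(0, σ))`, with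
the square roots `± exp (-2 ζ'(0, σ))` abelian over `K`) fails for `H` and `S`, then conditions
1, 2, 3 fail for `H` and `S ∪ {q}`, for all `q` in a set of primes of lower density at least `1/2`.

(3) Let all primes over `2` divide `m`. Then every `H` in the tower is contained in an `L` in the
tower with `4 ∣ [L : H]`. Let `T` be a set of primes whose complement has upper density less than
`1/2` (for example all primes), and let `t` be any number. Then the conjecture for all `H` in the
tower and `S` is equivalent to the conjecture for all these `H` and all `S ∪ {q₁, …, q_t}` with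
different `q₁, …, q_t` in `T` not dividing `m`. -/
theorem result (b : Bool) {K : Type} [Field K] [NumberField K] (hK : finrank ℚ K = 2)
    {ι₁ ι₂ : K →+* ℝ} (hι : ι₁ ≠ ι₂) {m : Ideal (𝓞 K)} (h0 : m ≠ ⊥) :
    (m ≠ ⊤ →
      ∀ (H L : Type) [Field H] [NumberField H] [Algebra K H] [IsAbelianGalois K H] [Field L]
        [NumberField L] [Algebra K L] [IsAbelianGalois K L] [Algebra H L] [IsScalarTower K H L]
        (i : H →+* ℂ) (I : L →+* ℂ), (∀ x : H, I (algebraMap H L x) = i x) →
        InTower ι₁ ι₂ m I → 2 ∣ finrank H L → (b = true → 4 ∣ finrank H L) →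
        ¬ StarkFor b 1 ι₂ m i → Large fun q => ¬ m ≤ q ∧ ¬ StarkFor b 1 ι₂ (m * q) I) ∧
    (m ≠ ⊤ →
      ∀ (H : Type) [Field H] [NumberField H] [Algebra K H] [IsAbelianGalois K H] (i : H →+* ℂ),
        InTower ι₁ ι₂ m i → ¬ StarkFor true 2 ι₂ m i →
        Large fun q => ¬ m ≤ q ∧ ¬ StarkFor false 1 ι₂ (m * q) i) ∧
    ((∀ 𝔭 : Ideal (𝓞 K), 𝔭.IsPrime → (2 : 𝓞 K) ∈ 𝔭 → m ≤ 𝔭) →
      (∀ (H : Type) [Field H] [NumberField H] [Algebra K H] [IsAbelianGalois K H] (i : H →+* ℂ),
        InTower ι₁ ι₂ m i →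
        ∃ (L : Type) (_ : Field L) (_ : NumberField L) (_ : Algebra K L) (_ : Algebra H L)
          (_ : IsScalarTower K H L) (_ : IsAbelianGalois K L) (I : L →+* ℂ),
          (∀ x : H, I (algebraMap H L x) = i x) ∧ InTower ι₁ ι₂ m I ∧ 4 ∣ finrank H L) ∧
      ∀ T : Ideal (𝓞 K) → Prop, (Small fun q => ¬ T q) → ∀ t : ℕ,
        (StarkS b ι₁ ι₂ m m ↔ ∀ s : Finset (Ideal (𝓞 K)), s.card = t →
          (∀ q ∈ s, q.IsPrime ∧ q ≠ ⊥ ∧ ¬ m ≤ q ∧ T q) →
          StarkS b ι₁ ι₂ m (m * ∏ q ∈ s, q))) := by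
  refine ⟨fun h1 H L i1 i2 i3 i4 i5 i6 i7 i8 i9 i10 i I hI hL h2r h4r hn =>
    towerStep b hK hι h0 h1 le_rfl hI hL h2r h4r hn,
    fun h1 H i1 i2 i3 i4 i hH hn => towerSq hK hι h0 h1 hH hn, fun h2 => ?_⟩
  have h1 : m ≠ ⊤ := by
    rintro rfl
    have h3 : Ideal.span {(2 : 𝓞 K)} ≠ ⊤ := by
      intro h4
      have h5 : Ideal.absNorm (Ideal.span {(2 : 𝓞 K)}) = 4 := by
        rw [Ideal.absNorm_span_singleton]
        have h4 := Algebra.norm_algebraMap (R := ℤ) (S := 𝓞 K) (2 : ℤ)
        rw [RingOfIntegers.rank, hK] at h4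
        have h5 : (algebraMap ℤ (𝓞 K)) 2 = 2 := by simp
        rw [h5] at h4
        rw [h4]
        rfl
      rw [h4, Ideal.absNorm_top] at h5
      omega
    obtain ⟨𝔭, h𝔭, hle⟩ := Ideal.exists_le_maximal _ h3
    exact h𝔭.ne_top (top_le_iff.1 (h2 𝔭 h𝔭.isPrime (hle (Ideal.mem_span_singleton_self 2))))
  exact ⟨fun H i1 i2 i3 i4 i hH => tower_exists h0 h2 hH,
    fun T hT t => starkS_iff b hK hι h0 h1 h2 T hT t⟩

end Pool.Agent.Attic40.SLowering
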